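import Mathlib
import Pool.Agent.Y952.CaraDefs
import Pool.Agent.Y952.CaraSuff
import Pool.Agent.Y952.CaraNec

/-!
# The exact coefficient regions of the Caratheodory family of the ball

MP_2482e1_an asks for the sharp upper bound `C_{m,n}` of `‖P_m‖` over the Caratheodory family of the
unit ball of `ℂ^n`. Here, for every complex Hilbert space `E` with `dim E ≥ 2` (finite or infinite
dimensional), every `m ≥ 2` and every unit vector `z`, the full set of the values `P_m(z)`,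
`h ∈ 𝓜`, is determined. With `D = m + 1 + (m - 3) g^2` and
`ρ = √((m - g^2)(1 + g^2) / D)`, it is the union over `0 ≤ g ≤ 1` of the sets

`|⟨z, v⟩| ≤ g (1 - g^2 + 2 ρ^2) / ρ^(m+1)`,
`‖v - ⟨z, v⟩ z‖ ≤ √((1 - g^2)(m + (m - 2) g^2)) / ρ^(m+1)`.

The sharp bound of `‖P_m‖` is the value at `g = 0` of the second expression, it is
`√((m+1)^(m+1) / m^m)`; the value at `g = 1` of the first one is `2`.

Proof. Necessity: averaging of `Re ⟨h(x), x⟩` over the boundaries of rational discs (the inequality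
`key_ineq` of the earlier file `Helper540/Cara.lean`, for all pairs of directions and phases).
Sufficiency: the explicit maps
`x ↦ x (1 + c ε ξ^(m-1)) / (1 - c ε ξ^(m-1)) + e₂ ε B ξ^m / (1 - c ε ξ^(m-1))^2`, `ξ = ⟨e₁, x⟩`, for
an orthonormal pair `e₁`, `e₂` that is rotated against `z`, and convexity.
-/

set_option autoImplicit false

namespace Pool.Agent.Results.MP_2482e1_an.CoefficientRegion

open Metric Set Pool.Agent.Helper540 Pool.Agent.Y952.Cara

universe u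

variable {E : Type u} [NormedAddCommGroup E] [InnerProductSpace ℂ E]

theorem exists_orth (hE : 1 < Module.rank ℂ E) (z : E) : ∃ w : E, ‖w‖ = 1 ∧ inner ℂ z w = 0 := by
  have h1 : (ℂ ∙ z)ᗮ ≠ ⊥ := by
    intro h2
    rw [Submodule.orthogonal_eq_bot_iff] at h2
    have h3 : Module.rank ℂ (ℂ ∙ z) ≤ 1 := by
      refine (rank_span_le {z}).trans ?_
      simp
    rw [h2, rank_top] at h3
    exact absurd hE (not_lt.2 h3)
  obtain ⟨w, hw, hw0⟩ := Submodule.exists_mem_ne_zero_of_ne_bot h1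
  refine ⟨((‖w‖ : ℝ) : ℂ)⁻¹ • w, ?_, ?_⟩
  · rw [norm_smul, norm_inv, Complex.norm_real, norm_norm,
      inv_mul_cancel₀ (norm_pos_iff.2 hw0).ne']
  · rw [inner_smul_right, Submodule.mem_orthogonal_singleton_iff_inner_right.1 hw, mul_zero]

variable [CompleteSpace E]

theorem norm_homPart_le {m : ℕ} (hm : 2 ≤ m) {h : E → E} (hh : h ∈ caraFamily E) {z : E}
    (hz : ‖z‖ = 1) : ‖homPart m h z‖ ≤ sharpC m :=
  norm_tc_le hh.1 hh.2.1 hh.2.2.1 (pos_le hh) hm hz

theorem exists_extremal (hE : 1 < Module.rank ℂ E) {m : ℕ} (hm : 2 ≤ m) {z : E} (hz : ‖z‖ = 1) :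
    ∃ h ∈ caraFamily E, ‖homPart m h z‖ = sharpC m := by
  obtain ⟨w, hw, hzw⟩ := exists_orth hE z
  have hg : (0 : ℝ) ∈ Icc (0 : ℝ) 1 := ⟨le_rfl, zero_le_one⟩
  obtain ⟨h, hh, hv⟩ := point hm hz hw hzw (ε := 1) (by simp) hg
  refine ⟨h, hh, ?_⟩
  simp only at hv
  rw [hv, bdA_zero, bdB_zero hm]
  simp only [Complex.ofReal_zero, mul_zero, zero_smul, zero_add, one_mul]
  rw [norm_smul, hw, mul_one, Complex.norm_real, Real.norm_of_nonneg (Real.sqrt_nonneg _)]
  rfl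

/-- The first part of the result. -/
theorem region (hE : 1 < Module.rank ℂ E) (m : ℕ) (hm : 2 ≤ m) :
    (∀ z : E, ‖z‖ = 1 → ∀ v : E,
      ((∃ h ∈ caraFamily E, homPart m h z = v) ↔
        ∃ g ∈ Icc (0 : ℝ) 1, ‖inner ℂ z v‖ ≤ bdA m g ∧ ‖v - (inner ℂ z v) • z‖ ≤ bdB m g) ∧
      ((∃ h ∈ caraFamily E, homPart m h z = v) ↔
        ∀ g ∈ Icc (0 : ℝ) 1, rad m g ^ (m - 1) * (g * dd m g * ‖inner ℂ z v‖ +
          (1 - g ^ 2) * ss m g * ‖v - (inner ℂ z v) • z‖) ≤ (1 + g ^ 2) * dd m g)) ∧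
    (bdA m 0 = 0 ∧ bdB m 0 = sharpC m ∧ bdA m 1 = 2 ∧ bdB m 1 = 0) ∧
    (∀ z : E, ‖z‖ = 1 → IsGreatest ((fun h => ‖homPart m h z‖) '' caraFamily E) (sharpC m)) ∧
    IsGreatest (homNorm m '' caraFamily E) (sharpC m) ∧
    (FiniteDimensional ℂ E → ∀ h ∈ caraFamily E, ∀ z : E,
      homPart m h z = ((m.factorial : ℂ)⁻¹) • iteratedFDeriv ℂ m h 0 (fun _ => z)) := by
  refine ⟨?_, ⟨bdA_zero, bdB_zero hm, bdA_one hm, bdB_one⟩, ?_, ?_, ?_⟩
  · intro z hz v
    have h1 : (∃ h ∈ caraFamily E, homPart m h z = v) →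
        ∀ g ∈ Icc (0 : ℝ) 1, rad m g ^ (m - 1) * (g * dd m g * ‖inner ℂ z v‖ +
          (1 - g ^ 2) * ss m g * ‖v - (inner ℂ z v) • z‖) ≤ (1 + g ^ 2) * dd m g := by
      rintro ⟨h, hh, rfl⟩ g hg
      exact nec hh hm hz hg
    have h2 := exists_of_forall hm (norm_nonneg (inner ℂ z v))
      (norm_nonneg (v - (inner ℂ z v) • z))
    have h3 : (∃ g ∈ Icc (0 : ℝ) 1, ‖inner ℂ z v‖ ≤ bdA m g ∧
        ‖v - (inner ℂ z v) • z‖ ≤ bdB m g) → ∃ h ∈ caraFamily E, homPart m h z = v := by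
      rintro ⟨g, hg, ha, hb⟩
      obtain ⟨h, hh, hv⟩ := mem_vals hm hz (exists_orth hE z) hg ha hb
      exact ⟨h, hh, hv⟩
    exact ⟨⟨fun h => h2 (h1 h), h3⟩, ⟨h1, fun h => h3 (h2 h)⟩⟩
  · intro z hz
    refine ⟨?_, ?_⟩
    · obtain ⟨h, hh, hv⟩ := exists_extremal hE hm hz
      exact ⟨h, hh, hv⟩
    · rintro _ ⟨h, hh, rfl⟩
      exact norm_homPart_le hm hh hz
  · have hle : ∀ h ∈ caraFamily E, homNorm m h ≤ sharpC m := by
      intro h hh
      apply Real.sSup_le _ (Real.sqrt_nonneg _)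
      rintro _ ⟨z, hz, rfl⟩
      exact norm_homPart_le hm hh (by simpa using hz)
    refine ⟨?_, ?_⟩
    · have : Nontrivial E := by
        by_contra hcon
        rw [not_nontrivial_iff_subsingleton] at hcon
        have : Module.rank ℂ E = 0 := rank_subsingleton' ℂ E
        rw [this] at hE
        exact absurd hE (by simp)
      obtain ⟨z, hz⟩ := exists_norm_eq E zero_le_one
      obtain ⟨h, hh, hv⟩ := exists_extremal hE hm hz
      refine ⟨h, hh, le_antisymm (hle h hh) ?_⟩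
      rw [← hv]
      apply le_csSup
      · refine ⟨sharpC m, ?_⟩
        rintro _ ⟨w, hw, rfl⟩
        exact norm_homPart_le hm hh (by simpa using hw)
      · exact ⟨z, by simpa using hz, rfl⟩
    · rintro _ ⟨h, hh, rfl⟩
      exact hle h hh
  · intro hfd h hh z
    rw [homPart_eq]
    exact tc_slice one_pos hh.1 m z

/-- **Coefficient regions of the Caratheodory family, and the sharp bounds.**

First part: let `E` be a complex Hilbert space of dimension at least two and `m ≥ 2`.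

1. For every unit vector `z` and every `v`: there is `h` in the Caratheodory family with
`P_m(z) = v` if and only if `|⟨z, v⟩| ≤ A(g)` and `‖v - ⟨z, v⟩ z‖ ≤ B(g)` for some `g ∈ [0, 1]`, where
`A(g) = g (1 - g^2 + 2 ρ^2) / ρ^(m+1)`, `B(g) = √((1 - g^2)(m + (m - 2) g^2)) / ρ^(m+1)`,
`ρ = √((m - g^2)(1 + g^2) / (m + 1 + (m - 3) g^2))`; equivalently, if and only if the linear
inequalities in `|⟨z, v⟩|` and `‖v - ⟨z, v⟩ z‖` of all the parameters `g ∈ [0, 1]` hold.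
2. `A(0) = 0`, `B(0) = √((m+1)^(m+1) / m^m)`, `A(1) = 2`, `B(1) = 0`.
3. For every unit vector `z`, `√((m+1)^(m+1) / m^m)` is the maximum of `‖P_m(z)‖` over the family,
and it is the maximum of `‖P_m‖` over the family.
4. If `E` is finite dimensional then `P_m(z) = (1/m!) D^m h(0)(z, …, z)`.

Second part (Q1): for `E = ℂ^n` with the Euclidean norm, `n, m ≥ 2`, the maximum of `‖P_m‖` over the
family is `√((m+1)^(m+1) / m^m)`. -/
theorem result :
    (∀ (E : Type u) [NormedAddCommGroup E] [InnerProductSpace ℂ E] [CompleteSpace E],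
      1 < Module.rank ℂ E → ∀ m : ℕ, 2 ≤ m →
      (∀ z : E, ‖z‖ = 1 → ∀ v : E,
        ((∃ h ∈ caraFamily E, homPart m h z = v) ↔
          ∃ g ∈ Icc (0 : ℝ) 1, ‖inner ℂ z v‖ ≤ bdA m g ∧ ‖v - (inner ℂ z v) • z‖ ≤ bdB m g) ∧
        ((∃ h ∈ caraFamily E, homPart m h z = v) ↔
          ∀ g ∈ Icc (0 : ℝ) 1, rad m g ^ (m - 1) * (g * dd m g * ‖inner ℂ z v‖ +
            (1 - g ^ 2) * ss m g * ‖v - (inner ℂ z v) • z‖) ≤ (1 + g ^ 2) * dd m g)) ∧
      (bdA m 0 = 0 ∧ bdB m 0 = sharpC m ∧ bdA m 1 = 2 ∧ bdB m 1 = 0) ∧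
      (∀ z : E, ‖z‖ = 1 → IsGreatest ((fun h => ‖homPart m h z‖) '' caraFamily E) (sharpC m)) ∧
      IsGreatest (homNorm m '' caraFamily E) (sharpC m) ∧
      (FiniteDimensional ℂ E → ∀ h ∈ caraFamily E, ∀ z : E,
        homPart m h z = ((m.factorial : ℂ)⁻¹) • iteratedFDeriv ℂ m h 0 (fun _ => z))) ∧
    (∀ n m : ℕ, 2 ≤ n → 2 ≤ m →
      IsGreatest (homNorm m '' caraFamily (EuclideanSpace ℂ (Fin n))) (sharpC m)) := by
  refine ⟨fun E _ _ _ hE m hm => region hE m hm, fun n m hn hm => ?_⟩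
  have hE : 1 < Module.rank ℂ (EuclideanSpace ℂ (Fin n)) := by
    rw [← Module.finrank_eq_rank, finrank_euclideanSpace_fin]
    exact_mod_cast hn
  exact (region hE m hm).2.2.2.1

end Pool.Agent.Results.MP_2482e1_an.CoefficientRegion
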